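import Pool.Agent.J4.H98.RotorB

/-!
# Rotors in a regular triangular prism are balls

`E3` is Euclidean space `ℝ³` with coordinates `x 0`, `x 1`, `x 2`; the third coordinate is `z`.
-/

set_option autoImplicit false

open Set Metric Module
open scoped RealInnerProductSpace

namespace Pool.Agent.Results.MP_c2e62a_gt.RotorsAreBalls

/-- Euclidean space `ℝ³` -/
abbrev E3 := EuclideanSpace ℝ (Fin 3)

/-- `a 0`, `a 1`, `a 2` are the vertices of an equilateral triangle with side `L` in the plane
`z = 0`. -/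
structure IsTriangle (a : Fin 3 → E3) (L : ℝ) : Prop where
  pos : 0 < L
  plane : ∀ i, a i 2 = 0
  side : ∀ i j, i ≠ j → dist (a i) (a j) = L

/-- the cylinder `S × ℝ` over a set `S` in the plane `z = 0` -/
def cylinder (S : Set E3) : Set E3 := {x | ∃ p ∈ S, x 0 = p 0 ∧ x 1 = p 1}

/-- the infinite triangular prism over the triangle with vertices `a 0`, `a 1`, `a 2` -/
def prism (a : Fin 3 → E3) : Set E3 := cylinder (convexHull ℝ (range a))

/-- the face of the prism over the edge opposite to the vertex `a i` -/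
def face (a : Fin 3 → E3) (i : Fin 3) : Set E3 := cylinder (segment ℝ (a (i + 1)) (a (i + 2)))

/-- `K` is a rotor in the prism over the triangle `a`: for every rotation `ρ ∈ SO(3)` there is a
translation `t` such that `ρ K + t` is contained in the prism and meets each of its faces. -/
def IsRotor (a : Fin 3 → E3) (K : Set E3) : Prop :=
  ∀ ρ : E3 ≃ₗᵢ[ℝ] E3, LinearMap.det (ρ.toLinearEquiv : E3 →ₗ[ℝ] E3) = 1 →
    ∃ t : E3, (fun x => ρ x + t) '' K ⊆ prism a ∧
      ∀ i, ((fun x => ρ x + t) '' K ∩ face a i).Nonempty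

open Pool.Agent.J4.H98.Rotor

section

variable {a : Fin 3 → E3} {L : ℝ}

/-- the centre of the triangle -/
noncomputable def ctr (a : Fin 3 → E3) : E3 := (1 / 3 : ℝ) • (a 0 + a 1 + a 2)

/-- the outer unit normal vectors of the faces -/
noncomputable def nrm (a : Fin 3 → E3) (L : ℝ) (i : Fin 3) : E3 := -((√3 / L) • (a i - ctr a))

lemma sqrt3 : √3 ^ 2 = 3 := Real.sq_sqrt (by norm_num)

lemma inner3 (x y : E3) : ⟪x, y⟫ = x 0 * y 0 + x 1 * y 1 + x 2 * y 2 := by
  rw [PiLp.inner_apply, Fin.sum_univ_three]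
  simp
  ring

lemma nrm_apply (a : Fin 3 → E3) (L : ℝ) (i j : Fin 3) :
    nrm a L i j = -(√3 / L * (a i j - 1 / 3 * (a 0 j + a 1 j + a 2 j))) := by
  simp only [nrm, ctr, PiLp.neg_apply, PiLp.smul_apply, PiLp.sub_apply, PiLp.add_apply,
    smul_eq_mul]

lemma sides (h : IsTriangle a L) (i j : Fin 3) (hij : i ≠ j) :
    (a i 0 - a j 0) ^ 2 + (a i 1 - a j 1) ^ 2 = L ^ 2 := by
  have h1 := h.side i j hij
  have h2 := normsq (a i - a j)
  rw [← dist_eq_norm, h1] at h2
  simp only [PiLp.sub_apply, h.plane] at h2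
  linarith

/-- the inner products `⟨a j - g, a i - g⟩` -/
lemma inner_ctr (h : IsTriangle a L) (i j : Fin 3) :
    ⟪a j - ctr a, a i - ctr a⟫ = if i = j then L ^ 2 / 3 else -(L ^ 2 / 6) := by
  have e1 := sides h 0 1 (by decide)
  have e2 := sides h 0 2 (by decide)
  have e3 := sides h 1 2 (by decide)
  rw [inner3]
  simp only [ctr, PiLp.sub_apply, PiLp.smul_apply, PiLp.add_apply, h.plane, smul_eq_mul]
  fin_cases i <;> fin_cases j <;> simp
  · linear_combination (2 / 9) * e1 + (2 / 9) * e2 - (1 / 9) * e3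
  · linear_combination -(5 / 18) * e1 + (1 / 18) * e2 + (1 / 18) * e3
  · linear_combination (1 / 18) * e1 - (5 / 18) * e2 + (1 / 18) * e3
  · linear_combination -(5 / 18) * e1 + (1 / 18) * e2 + (1 / 18) * e3
  · linear_combination (2 / 9) * e1 - (1 / 9) * e2 + (2 / 9) * e3
  · linear_combination (1 / 18) * e1 + (1 / 18) * e2 - (5 / 18) * e3
  · linear_combination (1 / 18) * e1 - (5 / 18) * e2 + (1 / 18) * e3
  · linear_combination (1 / 18) * e1 + (1 / 18) * e2 - (5 / 18) * e3
  · linear_combination -(1 / 9) * e1 + (2 / 9) * e2 + (2 / 9) * e3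

lemma inner_nrm (h : IsTriangle a L) (i j : Fin 3) :
    ⟪a j - ctr a, nrm a L i⟫ = if i = j then -(L / √3) else L / (2 * √3) := by
  have hL := h.pos.ne'
  have h3 : √3 ≠ 0 := (Real.sqrt_pos.2 (by norm_num)).ne'
  rw [nrm, inner_neg_right, inner_smul_right, inner_ctr h]
  split_ifs
  · field_simp
    rw [sqrt3]
  · field_simp
    rw [sqrt3]
    ring

lemma tri_nrm (h : IsTriangle a L) : Tri (nrm a L) := by
  have hL := h.pos.ne'
  refine ⟨fun i => ?_, ?_⟩
  · have : ‖nrm a L i‖ ^ 2 = 1 := by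
      rw [← real_inner_self_eq_norm_sq, nrm, inner_neg_neg, inner_smul_left, inner_smul_right,
        inner_ctr h, if_pos rfl]
      simp only [conj_trivial]
      field_simp
      rw [sqrt3]
    exact (pow_eq_one_iff_of_nonneg (norm_nonneg _) two_ne_zero).1 this
  · simp only [nrm, ctr]
    module

lemma nrm_two (h : IsTriangle a L) (i : Fin 3) : nrm a L i 2 = 0 := by
  rw [nrm_apply]
  simp [h.plane]

lemma inner_cyl (h : IsTriangle a L) (i : Fin 3) {x p : E3} (h0 : x 0 = p 0) (h1 : x 1 = p 1) :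
    ⟪x - ctr a, nrm a L i⟫ = ⟪p - ctr a, nrm a L i⟫ := by
  rw [inner3, inner3]
  simp [h0, h1, nrm_two h]

lemma le_of_mem_prism (h : IsTriangle a L) {x : E3} (hx : x ∈ prism a) (i : Fin 3) :
    ⟪x - ctr a, nrm a L i⟫ ≤ L / (2 * √3) := by
  obtain ⟨p, hp, h0, h1⟩ := hx
  rw [inner_cyl h i h0 h1]
  have hconv : Convex ℝ {p : E3 | ⟪p - ctr a, nrm a L i⟫ ≤ L / (2 * √3)} := by
    intro x hx y hy s t hs ht hst
    simp only [mem_ofPred_eq] at hx hy ⊢
    have e : s • x + t • y - ctr a = s • (x - ctr a) + t • (y - ctr a) := by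
      have : ctr a = (s + t) • ctr a := by rw [hst, one_smul]
      nth_rw 1 [this]
      module
    rw [e, inner_add_left, inner_smul_left, inner_smul_left]
    simp only [conj_trivial]
    calc s * ⟪x - ctr a, nrm a L i⟫ + t * ⟪y - ctr a, nrm a L i⟫
        ≤ s * (L / (2 * √3)) + t * (L / (2 * √3)) := by gcongr
      _ = L / (2 * √3) := by rw [← add_mul, hst, one_mul]
  have hsub : range a ⊆ {p : E3 | ⟪p - ctr a, nrm a L i⟫ ≤ L / (2 * √3)} := by
    rintro _ ⟨j, rfl⟩
    simp only [mem_ofPred_eq]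
    rw [inner_nrm h]
    have hL := h.pos
    have h3 : 0 < √3 := Real.sqrt_pos.2 (by norm_num)
    split_ifs
    · have : 0 < L / √3 := by positivity
      have : 0 < L / (2 * √3) := by positivity
      linarith
    · exact le_rfl
  exact convexHull_min hsub hconv hp

lemma eq_of_mem_face (h : IsTriangle a L) {x : E3} {i : Fin 3} (hx : x ∈ face a i) :
    ⟪x - ctr a, nrm a L i⟫ = L / (2 * √3) := by
  obtain ⟨p, hp, h0, h1⟩ := hx
  rw [inner_cyl h i h0 h1]
  obtain ⟨s, t, hs, ht, hst, rfl⟩ := hp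
  have e : s • a (i + 1) + t • a (i + 2) - ctr a =
      s • (a (i + 1) - ctr a) + t • (a (i + 2) - ctr a) := by
    have : ctr a = (s + t) • ctr a := by rw [hst, one_smul]
    nth_rw 1 [this]
    module
  rw [e, inner_add_left, inner_smul_left, inner_smul_left, inner_nrm h, inner_nrm h,
    if_neg (by fin_cases i <;> decide), if_neg (by fin_cases i <;> decide)]
  simp only [conj_trivial]
  rw [← add_mul, hst, one_mul]

lemma supp_sum (h : IsTriangle a L) {K : Set E3} (hK : IsCompact K) (hr : IsRotor a K)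
    {v : Fin 3 → E3} (hv : Tri v) :
    supp K (v 0) + supp K (v 1) + supp K (v 2) = 3 * (L / (2 * √3)) := by
  have hw := tri_nrm h
  obtain ⟨ρ, hdet, hρ⟩ := exists_rotation hv hw
  obtain ⟨t, hsub, hmeet⟩ := hr ρ hdet
  have key : ∀ i, supp K (v i) = L / (2 * √3) - ⟪t - ctr a, nrm a L i⟫ := by
    intro i
    obtain ⟨_, ⟨x, hx, rfl⟩, hxf⟩ := hmeet i
    have e : ∀ y, ⟪y, v i⟫ = ⟪ρ y + t - ctr a, nrm a L i⟫ - ⟪t - ctr a, nrm a L i⟫ := by
      intro y
      rw [← inner_sub_left, ← hρ i, ← ρ.inner_map_map y (v i)]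
      congr 1
      abel
    refine supp_eq hK hx ?_ ?_
    · rw [e, eq_of_mem_face h hxf]
    · intro y hy
      rw [e]
      have := le_of_mem_prism h (hsub ⟨y, hy, rfl⟩) i
      linarith
  have hs : ⟪t - ctr a, nrm a L 0⟫ + ⟪t - ctr a, nrm a L 1⟫ + ⟪t - ctr a, nrm a L 2⟫ = 0 := by
    rw [← inner_add_right, ← inner_add_right, hw.sum, inner_zero_right]
  rw [key, key, key]
  linarith

lemma frame {w : Fin 3 → E3} (hw : Tri w) (h2 : ∀ i, w i 2 = 0) (z : E3) (hz : z 2 = 0) :
    ⟪z, w 0⟫ • w 0 + ⟪z, w 1⟫ • w 1 + ⟪z, w 2⟫ • w 2 = (3 / 2 : ℝ) • z := by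
  have n0 := normsq (w 0)
  have n1 := normsq (w 1)
  have n2 := hw.inner
  rw [hw.unit, h2] at n0 n1
  rw [inner3, h2, h2] at n2
  have hs : ∀ j, w 2 j = -w 0 j - w 1 j := by
    intro j
    have := congrArg (fun v : E3 => v j) hw.sum
    simp only [PiLp.add_apply, PiLp.zero_apply] at this
    linarith
  set p := w 0 0
  set q := w 0 1
  set p' := w 1 0
  set q' := w 1 1
  set D := p * q' - q * p' with hD
  have hp' : p' = -p / 2 - q * D := by
    rw [hD]
    linear_combination p' * n0 + p * n2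
  have hq' : q' = -q / 2 + p * D := by
    rw [hD]
    linear_combination q' * n0 + q * n2
  have hD2 : D ^ 2 = 3 / 4 := by
    rw [hD]
    linear_combination (-(p' ^ 2 + q' ^ 2)) * n0 - n1 - (p * p' + q * q' - 1 / 2) * n2
  have k1 : p ^ 2 + p' ^ 2 + p * p' = 3 / 4 := by
    rw [hp']
    linear_combination q ^ 2 * hD2 - (3 / 4) * n0
  have k2 : q ^ 2 + q' ^ 2 + q * q' = 3 / 4 := by
    rw [hq']
    linear_combination p ^ 2 * hD2 - (3 / 4) * n0
  have k3 : 2 * p * q + 2 * p' * q' + p * q' + q * p' = 0 := by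
    rw [hp', hq']
    linear_combination (-2 * p * q) * hD2
  simp only [inner3, h2, hs]
  ext j
  fin_cases j
  · simp [hs]
    linear_combination (2 * z 0) * k1 + z 1 * k3
  · simp [hs]
    linear_combination (2 * z 1) * k2 + z 0 * k3
  · simp [h2, hz]

lemma nrm_eq (h : IsTriangle a L) (i : Fin 3) : a i = ctr a - (L / √3) • nrm a L i := by
  have hL := h.pos.ne'
  have h3 : √3 ≠ 0 := (Real.sqrt_pos.2 (by norm_num)).ne'
  rw [nrm, smul_neg, smul_smul, div_mul_div_cancel₀ h3, div_self hL, one_smul]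
  abel

lemma ball_rotor (h : IsTriangle a L) (c : E3) : IsRotor a (closedBall c (L / (2 * √3))) := by
  have hL := h.pos
  have h3 : 0 < √3 := Real.sqrt_pos.2 (by norm_num)
  intro ρ _
  have himg : (fun x => ρ x + (ctr a - ρ c)) '' closedBall c (L / (2 * √3)) =
      closedBall (ctr a) (L / (2 * √3)) := by
    have e1 : (fun x => ρ x + (ctr a - ρ c)) '' closedBall c (L / (2 * √3)) =
        (fun y => y + (ctr a - ρ c)) '' (ρ '' closedBall c (L / (2 * √3))) := by
      rw [image_image]
    rw [e1, LinearIsometryEquiv.image_closedBall]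
    ext y
    simp only [mem_image, mem_closedBall]
    constructor
    · rintro ⟨x, hx, rfl⟩
      rw [dist_eq_norm] at hx ⊢
      convert hx using 2
      abel
    · intro hy
      refine ⟨y - (ctr a - ρ c), ?_, by abel⟩
      rw [dist_eq_norm] at hy ⊢
      convert hy using 2
      abel
  refine ⟨ctr a - ρ c, ?_, ?_⟩
  · rw [himg]
    intro y hy
    rw [mem_closedBall_iff_norm] at hy
    set z : E3 := !₂[y 0 - ctr a 0, y 1 - ctr a 1, 0] with hz
    have hc2 : ctr a 2 = 0 := by
      simp [ctr, h.plane]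
    have hzn : ‖z‖ ≤ L / (2 * √3) := by
      refine le_trans ?_ hy
      apply abs_le_of_sq_le_sq' _ (norm_nonneg _) |>.2
      rw [normsq, normsq]
      simp [hz]
      positivity
    have hfr := frame (tri_nrm h) (nrm_two h) z (by simp [hz])
    set w := nrm a L with hw
    set l : Fin 3 → ℝ := fun i => 1 / 3 - 2 / 3 * (√3 / L) * ⟪z, w i⟫ with hl
    have hl0 : ∀ i, 0 ≤ l i := by
      intro i
      have e1 := real_inner_le_norm z (w i)
      rw [(tri_nrm h).unit, mul_one] at e1
      have e2 : √3 / L * ⟪z, w i⟫ ≤ √3 / L * (L / (2 * √3)) := by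
        gcongr
        exact e1.trans hzn
      have e3 : √3 / L * (L / (2 * √3)) = 1 / 2 := by
        field_simp
      simp only [hl]
      linarith
    have hsum0 : ⟪z, w 0⟫ + ⟪z, w 1⟫ + ⟪z, w 2⟫ = 0 := by
      rw [← inner_add_right, ← inner_add_right, (tri_nrm h).sum, inner_zero_right]
    have hl1 : l 0 + l 1 + l 2 = 1 := by
      simp only [hl]
      linear_combination (-(2 / 3 * (√3 / L))) * hsum0
    have hcomb : l 0 • a 0 + l 1 • a 1 + l 2 • a 2 = ctr a + z := by
      rw [nrm_eq h 0, nrm_eq h 1, nrm_eq h 2, ← hw]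
      have e1 : l 0 • (ctr a - (L / √3) • w 0) + l 1 • (ctr a - (L / √3) • w 1) +
          l 2 • (ctr a - (L / √3) • w 2) = (l 0 + l 1 + l 2) • ctr a -
          (L / √3) • (l 0 • w 0 + l 1 • w 1 + l 2 • w 2) := by module
      have e2 : l 0 • w 0 + l 1 • w 1 + l 2 • w 2 = (1 / 3 : ℝ) • (w 0 + w 1 + w 2) -
          (2 / 3 * (√3 / L)) • (⟪z, w 0⟫ • w 0 + ⟪z, w 1⟫ • w 1 + ⟪z, w 2⟫ • w 2) := by
        simp only [hl]
        module
      rw [e1, hl1, one_smul, e2, (tri_nrm h).sum, hfr, smul_zero, zero_sub, smul_neg, sub_neg_eq_add,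
        smul_smul, smul_smul]
      congr 1
      have e3 : L / √3 * (2 / 3 * (√3 / L)) * (3 / 2) = 1 := by
        field_simp
      rw [e3, one_smul]
    refine ⟨ctr a + z, ?_, ?_, ?_⟩
    · rw [← hcomb]
      have hmem : ∀ i, a i ∈ convexHull ℝ (range a) := fun i => subset_convexHull _ _ ⟨i, rfl⟩
      have := (convex_convexHull ℝ (range a)).sum_mem (t := Finset.univ) (w := l) (z := a)
        (fun i _ => hl0 i) (by rw [Fin.sum_univ_three]; exact hl1) (fun i _ => hmem i)
      rwa [Fin.sum_univ_three] at this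
    · simp [hz]
    · simp [hz]
  · intro i
    rw [himg]
    refine ⟨ctr a + (L / (2 * √3)) • nrm a L i, ?_, ?_⟩
    · rw [mem_closedBall_iff_norm, add_sub_cancel_left, norm_smul, (tri_nrm h).unit, mul_one,
        Real.norm_of_nonneg (by positivity)]
    · refine ⟨ctr a + (L / (2 * √3)) • nrm a L i, ?_, rfl, rfl⟩
      refine ⟨1 / 2, 1 / 2, by norm_num, by norm_num, by norm_num, ?_⟩
      have hsum := (tri_nrm h).sum
      have e : nrm a L (i + 1) + nrm a L (i + 2) = -nrm a L i := by
        have h4 : nrm a L i + nrm a L (i + 1) + nrm a L (i + 2) = 0 := by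
          rw [← hsum]
          fin_cases i
          · rfl
          · show nrm a L 1 + nrm a L 2 + nrm a L 0 = _
            abel
          · show nrm a L 2 + nrm a L 0 + nrm a L 1 = _
            abel
        rw [eq_neg_iff_add_eq_zero, ← h4]
        abel
      have e4 : L / (2 * √3) = 1 / 2 * (L / √3) := by
        field_simp
      rw [nrm_eq h (i + 1), nrm_eq h (i + 2), e4]
      have e5 : (1 / 2 : ℝ) • (ctr a - (L / √3) • nrm a L (i + 1)) +
          (1 / 2 : ℝ) • (ctr a - (L / √3) • nrm a L (i + 2)) =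
          ctr a - (1 / 2 * (L / √3)) • (nrm a L (i + 1) + nrm a L (i + 2)) := by module
      rw [e5, e]
      module

end

/-- A convex body (a compact convex set with nonempty interior) in `ℝ³` is a rotor in the infinite
prism over an equilateral triangle with side `L` if and only if it is a closed ball of radius
`L / (2 √3)` (the radius of the inscribed circle of the triangle). In particular every rotor in a
regular triangular prism is a ball. -/
theorem result (a : Fin 3 → E3) (L : ℝ) (ha : IsTriangle a L) (K : Set E3) (hK : IsCompact K)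
    (hconv : Convex ℝ K) (hint : (interior K).Nonempty) :
    IsRotor a K ↔ ∃ c : E3, K = closedBall c (L / (2 * √3)) := by
  constructor
  · intro h
    have hpos := ha.pos
    exact ball_of_supp hK hconv (hint.mono interior_subset) (by positivity)
      fun v hv => supp_sum ha hK h hv
  · rintro ⟨c, rfl⟩
    exact ball_rotor ha c

end Pool.Agent.Results.MP_c2e62a_gt.RotorsAreBalls
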